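import Pool.Agent.Helper30.BG.Goals

/-! Packet BG-GFUN: one-variable analysis of the hodograph function. -/

open InnerProductSpace Metric Set Filter Topology MeasureTheory
open scoped ContDiff

namespace Pool.Agent.Helper61.BG

open Pool.Agent.Helper30.BG

/-- a differentiable function with `C¹` derivative is `C²` -/
theorem contDiff_two {φ φ' : ℝ → ℝ} (h : ∀ x, HasDerivAt φ (φ' x) x) (h' : ContDiff ℝ 1 φ') :
    ContDiff ℝ 2 φ := by
  have e : deriv φ = φ' := funext fun x => (h x).deriv
  rw [show (2 : ℕ∞ω) = 1 + 1 by norm_num, contDiff_succ_iff_deriv]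
  refine ⟨fun x => (h x).differentiableAt, fun hw => ?_, by rw [e]; exact h'⟩
  exact absurd hw (by simp)

theorem contDiff_one' {φ φ' : ℝ → ℝ} (h : ∀ x, HasDerivAt φ (φ' x) x) (h' : Continuous φ') :
    ContDiff ℝ 1 φ := by
  have e : deriv φ = φ' := funext fun x => (h x).deriv
  rw [contDiff_one_iff_deriv]
  exact ⟨fun x => (h x).differentiableAt, by rw [e]; exact h'⟩

theorem hasDerivAt_integral {φ : ℝ → ℝ} (h : Continuous φ) (a v : ℝ) :
    HasDerivAt (fun v => ∫ t in a..v, φ t) (φ v) v :=
  intervalIntegral.integral_hasDerivAt_right (h.intervalIntegrable a v)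
    (h.stronglyMeasurableAtFilter _ _) h.continuousAt

section

variable {f : ℝ → ℝ} {a0 a1 : ℝ} (hf : Nonl f a0 a1)
include hf

theorem Fp_hasDerivAt (v : ℝ) : HasDerivAt (Fp f a0) (f v) v :=
  hasDerivAt_integral hf.cd.continuous a0 v

theorem Fp_mono : Monotone (Fp f a0) := by
  refine monotone_of_deriv_nonneg (fun v => (Fp_hasDerivAt hf v).differentiableAt) fun v => ?_
  rw [(Fp_hasDerivAt hf v).deriv]
  exact hf.nn v

theorem Fp_lo {v : ℝ} (hv : v ≤ a0) : Fp f a0 v = 0 := by
  unfold Fp
  rw [intervalIntegral.integral_congr (g := fun _ => (0 : ℝ)) (fun t ht => ?_)]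
  · simp
  · rw [uIcc_of_ge hv] at ht
    exact hf.lo t ht.2

theorem Fp_hi {v : ℝ} (hv : a1 ≤ v) : Fp f a0 v = Fp f a0 a1 := by
  have h1 : Fp f a0 v - Fp f a0 a1 = ∫ t in a1..v, f t :=
    intervalIntegral.integral_interval_sub_left (hf.cd.continuous.intervalIntegrable a0 v)
      (hf.cd.continuous.intervalIntegrable a0 a1)
  have h2 : ∫ t in a1..v, f t = 0 := by
    rw [intervalIntegral.integral_congr (g := fun _ => (0 : ℝ)) (fun t ht => ?_)]
    · simp
    · rw [uIcc_of_le hv] at ht
      exact hf.hi t ht.1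
  linarith

theorem Fp_nonneg (v : ℝ) : 0 ≤ Fp f a0 v := by
  rcases le_total v a0 with h | h
  · exact (Fp_lo hf h).ge
  · rw [← Fp_lo hf le_rfl]
    exact Fp_mono hf h

theorem Fp_le (v : ℝ) : Fp f a0 v ≤ Fp f a0 a1 := by
  rcases le_total v a1 with h | h
  · exact Fp_mono hf h
  · exact (Fp_hi hf h).le

end

theorem gfun : S_GFUN := by
  intro f a0 a1 α β hf hβ hα hαβ
  set Γ : ℝ → ℝ := fun v => √(β ^ 2 + 2 * Fp f a0 v) with hΓ
  have hpos : ∀ v, 0 < β ^ 2 + 2 * Fp f a0 v := fun v => by
    have := Fp_nonneg hf v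
    positivity
  have h1 : ∀ v, β ≤ Γ v ∧ Γ v ≤ α := by
    intro v
    have h2 := Fp_nonneg hf v
    have h3 := Fp_le hf v
    constructor
    · apply Real.le_sqrt_of_sq_le
      linarith
    · have : √(α ^ 2) = α := Real.sqrt_sq hα.le
      rw [← this]
      apply Real.sqrt_le_sqrt
      linarith
  have hΓpos : ∀ v, 0 < Γ v := fun v => lt_of_lt_of_le hβ (h1 v).1
  have h2 : ∀ v, HasDerivAt Γ (f v / Γ v) v := by
    intro v
    have h3 := (((Fp_hasDerivAt hf v).const_mul 2).const_add (β ^ 2)).sqrt (hpos v).ne'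
    refine h3.congr_deriv ?_
    have h4 := (hΓpos v).ne'
    change 2 * f v / (2 * Γ v) = f v / Γ v
    field_simp
  have hΓc : Continuous Γ := continuous_iff_continuousAt.2 fun v => (h2 v).continuousAt
  have hΓ1 : ContDiff ℝ 1 Γ :=
    contDiff_one' h2 (hf.cd.continuous.div hΓc fun v => (hΓpos v).ne')
  have hΓi : ContDiff ℝ 1 (fun v => 1 / Γ v) := contDiff_const.div hΓ1 fun v => (hΓpos v).ne'
  set G : ℝ → ℝ := fun v => ∫ t in (0 : ℝ)..v, 1 / Γ t with hG
  have h4 : ∀ v, HasDerivAt G (1 / Γ v) v := fun v => hasDerivAt_integral hΓi.continuous 0 v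
  have h3 : ContDiff ℝ 2 G := contDiff_two h4 hΓi
  have h5 : G 0 = 0 := by simp [hG]
  have hsub : ∀ a v, G v - G a = ∫ t in a..v, 1 / Γ t := fun a v =>
    intervalIntegral.integral_interval_sub_left (hΓi.continuous.intervalIntegrable 0 v)
      (hΓi.continuous.intervalIntegrable 0 a)
  have hΓhi : ∀ v, a1 ≤ v → Γ v = α := by
    intro v hv
    simp only [hΓ]
    rw [Fp_hi hf hv, ← hαβ, Real.sqrt_sq hα.le]
  have hΓlo : ∀ v, v ≤ a0 → Γ v = β := by
    intro v hv
    simp only [hΓ]
    rw [Fp_lo hf hv, mul_zero, add_zero, Real.sqrt_sq hβ.le]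
  have h7 : ∀ v, a1 ≤ v → G v = G a1 + (v - a1) / α := by
    intro v hv
    have h8 := hsub a1 v
    rw [intervalIntegral.integral_congr (g := fun _ => 1 / α) (fun t ht => ?_)] at h8
    · rw [intervalIntegral.integral_const, smul_eq_mul] at h8
      linarith [show (v - a1) * (1 / α) = (v - a1) / α by ring]
    · rw [uIcc_of_le hv] at ht
      change 1 / Γ t = 1 / α
      rw [hΓhi t ht.1]
  have h9 : ∀ v, v ≤ a0 → G v = G a0 + (v - a0) / β := by
    intro v hv
    have h8 := hsub a0 v
    rw [intervalIntegral.integral_congr (g := fun _ => 1 / β) (fun t ht => ?_)] at h8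
    · rw [intervalIntegral.integral_const, smul_eq_mul] at h8
      linarith [show (v - a0) * (1 / β) = (v - a0) / β by ring]
    · rw [uIcc_of_ge hv] at ht
      change 1 / Γ t = 1 / β
      rw [hΓlo t ht.2]
  have hmono1 : Monotone fun v => G v - v / α := by
    have hd : ∀ v, HasDerivAt (fun v => G v - v / α) (1 / Γ v - 1 / α) v := fun v =>
      (h4 v).sub ((hasDerivAt_id v).div_const α)
    refine monotone_of_deriv_nonneg (fun v => (hd v).differentiableAt) fun v => ?_
    rw [(hd v).deriv, sub_nonneg]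
    exact one_div_le_one_div_of_le (hΓpos v) (h1 v).2
  have hanti : Antitone fun v => G v - v / β := by
    have hd : ∀ v, HasDerivAt (fun v => G v - v / β) (1 / Γ v - 1 / β) v := fun v =>
      (h4 v).sub ((hasDerivAt_id v).div_const β)
    refine antitone_of_deriv_nonpos (fun v => (hd v).differentiableAt) fun v => ?_
    rw [(hd v).deriv, sub_nonpos]
    exact one_div_le_one_div_of_le hβ (h1 v).1
  have h6 : ∀ v, G v ≤ G a1 + (v - a1) / α := by
    intro v
    rcases le_total v a1 with hv | hv
    · have := hmono1 hv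
      simp only at this
      linarith [show (v - a1) / α = v / α - a1 / α by ring]
    · exact (h7 v hv).le
  have h8 : ∀ v, G v ≤ G a0 + (v - a0) / β := by
    intro v
    rcases le_total v a0 with hv | hv
    · exact (h9 v hv).le
    · have := hanti hv
      simp only at this
      linarith [show (v - a0) / β = v / β - a0 / β by ring]
  have hGm : StrictMono G := strictMono_of_deriv_pos fun v => by
    rw [(h4 v).deriv]
    exact one_div_pos.2 (hΓpos v)
  have hGs : Function.Surjective G := by
    refine h3.continuous.surjective ?_ ?_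
    · refine tendsto_atTop_mono' atTop (f₁ := fun v => G a1 + (v - a1) / α) ?_ ?_
      · filter_upwards [eventually_ge_atTop a1] with v hv
        exact (h7 v hv).ge
      · refine tendsto_atTop_add_const_left _ _ ?_
        refine Tendsto.atTop_div_const hα ?_
        exact tendsto_atTop_add_const_right _ _ tendsto_id
    · refine tendsto_atBot_mono' atBot (f₁ := fun v => G a0 + (v - a0) / β) ?_ ?_
      · filter_upwards [eventually_le_atBot a0] with v hv
        exact (h9 v hv).le
      · refine tendsto_atBot_add_const_left _ _ ?_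
        refine Tendsto.atBot_div_const hβ ?_
        exact tendsto_atBot_add_const_right _ _ tendsto_id
  set e : ℝ ≃o ℝ := StrictMono.orderIsoOfSurjective G hGm hGs with he
  have hVG : ∀ v, e.symm (G v) = v := fun v => e.symm_apply_apply v
  have hGV : ∀ s, G (e.symm s) = s := fun s => e.apply_symm_apply s
  have hVc : Continuous e.symm := e.symm.continuous
  have h11 : ∀ s, HasDerivAt e.symm (Γ (e.symm s)) s := by
    intro s
    have h12 := HasDerivAt.of_local_left_inverse (f := G) (g := e.symm) (a := s)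
      hVc.continuousAt (h4 (e.symm s)) (one_div_ne_zero (hΓpos _).ne')
      (Eventually.of_forall hGV)
    refine h12.congr_deriv ?_
    rw [one_div, inv_inv]
  have hV1 : ContDiff ℝ 1 e.symm := contDiff_one' h11 (hΓc.comp hVc)
  have h10 : ContDiff ℝ 2 e.symm := contDiff_two h11 (hΓ1.comp hV1)
  refine ⟨Γ, G, e.symm, h1, h2, h3, h4, h5, h6, h7, h8, h9, h10, h11, ?_, e.symm.strictMono, hVG⟩
  intro s
  have e1 : deriv (e.symm : ℝ → ℝ) = fun s => Γ (e.symm s) := funext fun s => (h11 s).deriv
  rw [e1]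
  have h13 : HasDerivAt (fun s => Γ (e.symm s)) (f (e.symm s) / Γ (e.symm s) * Γ (e.symm s)) s :=
    (h2 (e.symm s)).comp s (h11 s)
  rw [h13.deriv, div_mul_cancel₀ _ (hΓpos _).ne']

end Pool.Agent.Helper61.BG
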