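import Pool.Agent.Helper30.BG.Goals

/-! Packet BG-YSOL: the hodograph variable. -/

open InnerProductSpace Metric Set Filter Topology MeasureTheory
open scoped ContDiff Laplacian

namespace Pool.Agent.Helper61.BG

open Pool.Agent.Helper30.BG

theorem abs_coord_le (x : E3) (i : Fin 3) : |x i| ≤ ‖x‖ := by
  have := EuclideanSpace.norm_sq_eq x
  have h2 : ‖x i‖ ^ 2 ≤ ∑ j, ‖x j‖ ^ 2 :=
    Finset.single_le_sum (f := fun j => ‖x j‖ ^ 2) (fun j _ => by positivity) (Finset.mem_univ i)
  rw [← this, Real.norm_eq_abs] at h2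
  exact abs_le_of_sq_le_sq' h2 (norm_nonneg x) |> fun h => abs_le.2 (by
    rw [abs_le] at *
    constructor
    · have := neg_abs_le (x i)
      linarith [h.2]
    · have := le_abs_self (x i)
      linarith [h.2])

theorem ysol (hG : S_GFUN) : S_YSOL := by
  intro f u a0 a1 α β K hS hβ hαβ
  obtain ⟨Γ, G, V, g1, g2, g3, g4, g5, g6, g7, g8, g9, g10, g11, g12, g13, g14⟩ :=
    hG f a0 a1 α β hS.nl hβ hS.α_pos hαβ
  have hα := hS.α_pos
  have hΓpos : ∀ v, 0 < Γ v := fun v => lt_of_lt_of_le hβ (g1 v).1
  set Y₀ : E3 → ℝ := fun x => x 0 - G (u x) with hY₀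
  have hbdd : BddBelow (range Y₀) := by
    refine ⟨min (a1 / α - G a1) (a0 / β - G a0), ?_⟩
    rintro _ ⟨x, rfl⟩
    rcases le_total 0 (x 0) with hx | hx
    · refine (min_le_left _ _).trans ?_
      have h1 := g6 (u x)
      have h2 := hS.up x hx
      have h3 : (u x - a1) / α ≤ x 0 - a1 / α := by
        rw [div_le_iff₀ hα, sub_mul, div_mul_cancel₀ _ hα.ne']
        linarith
      simp only [hY₀]
      linarith
    · refine (min_le_right _ _).trans ?_
      have h1 := g8 (u x)
      have h2 := hS.dn x hx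
      have h3 : (u x - a0) / β ≤ x 0 - a0 / β := by
        rw [div_le_iff₀ hβ, sub_mul, div_mul_cancel₀ _ hβ.ne']
        linarith
      simp only [hY₀]
      linarith
  set m₀ : ℝ := ⨅ x, Y₀ x with hm₀
  set Y : E3 → ℝ := fun x => x 0 - G (u x) - m₀ with hY
  set g : E3 → ℝ := fun x => f (u x) / Γ (u x) with hg
  obtain ⟨Mf, hMf⟩ : ∃ Mf : ℝ, 0 ≤ Mf ∧ ∀ v, f v ≤ Mf := by
    obtain ⟨C, hC⟩ := isCompact_Icc.exists_bound_of_continuousOn (s := Icc a0 a1)
      hS.nl.cd.continuous.continuousOn
    refine ⟨max C 0, le_max_right _ _, fun v => ?_⟩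
    rcases le_total v a0 with h | h
    · rw [hS.nl.lo v h]
      exact le_max_right _ _
    · rcases le_total a1 v with h' | h'
      · rw [hS.nl.hi v h']
        exact le_max_right _ _
      · exact (le_abs_self _).trans ((hC v ⟨h, h'⟩).trans (le_max_left _ _))
  have hLip : ∀ v w, |G v - G w| ≤ 1 / β * |v - w| := by
    intro v w
    have := Convex.norm_image_sub_le_of_norm_hasDerivWithin_le (f := G) (f' := fun v => 1 / Γ v)
      (C := 1 / β) (s := univ) (x := w) (y := v) (fun z _ => (g4 z).hasDerivWithinAt)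
      (fun z _ => by
        rw [Real.norm_eq_abs, abs_of_pos (one_div_pos.2 (hΓpos z))]
        exact one_div_le_one_div_of_le hβ (g1 z).1) convex_univ (mem_univ _) (mem_univ _)
    exact this
  have hHD : ∀ x, HD2 Y x (Pi.single 0 1 - (1 / Γ (u x)) • fun i => pd i u x)
      (0 - (-(f (u x) / Γ (u x)) / Γ (u x) ^ 2 * ∑ i, pd i u x ^ 2 + 1 / Γ (u x) * Δ u x)) := by
    intro x
    have h1 : HD2 u x (fun i => pd i u x) (Δ u x) := HD2.mk' hS.cd.contDiffAt
    have h2 := h1.comp (φ := G) (φ' := fun v => 1 / Γ v)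
      (φ'' := -(f (u x) / Γ (u x)) / Γ (u x) ^ 2) g3.contDiffAt
      (Eventually.of_forall g4) (by
        have h3 := (g2 (u x)).inv (hΓpos (u x)).ne'
        have e : (fun v => 1 / Γ v) = Γ⁻¹ := by
          funext v
          simp
        rw [e]
        exact h3)
    exact ((HD2.coord 0 x).sub h2).sub_const m₀
  refine ⟨Y, g, a1 - α * G a1 - α * m₀, a0 - β * G a0 - β * m₀, Mf / β, m₀, V, ?_, g10, g12, g13, ?_⟩
  · refine
      { cdu := hS.cd
        cd := ?_
        nn := ?_
        inf := ?_
        lin := ?_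
        g0 := ?_
        gM := ?_
        eq := ?_
        gup := ?_
        gdn := ?_
        lapu := ?_
        lapu_dn := ?_
        Yup := ?_
        Ydn := ?_
        α_pos := hα
        β_pos := hβ
        up := hS.up
        dn := hS.dn
        subp := hS.subp
        subm := hS.subm }
    · exact contDiff_iff_contDiffAt.2 fun x => (hHD x).cd
    · intro x
      have := ciInf_le hbdd x
      simp only [hY, hY₀] at *
      linarith
    · intro ε hε
      obtain ⟨x, hx⟩ := exists_lt_of_ciInf_lt (f := Y₀) (a := m₀ + ε) (by linarith)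
      refine ⟨x, ?_⟩
      simp only [hY, hY₀] at *
      linarith
    · have hK := hS.K_pos
      refine ⟨1 + K / β + |G (u 0)| + |m₀|, by positivity, fun x => ?_⟩
      have h1 : x 0 ≤ ‖x‖ := (le_abs_self _).trans (abs_coord_le x 0)
      have h2 := (abs_le.1 (hLip (u x) (u 0))).1
      have h3 : 1 / β * |u x - u 0| ≤ K / β * ‖x‖ := by
        have h4 := hS.lip x 0
        rw [sub_zero] at h4
        calc 1 / β * |u x - u 0| ≤ 1 / β * (K * ‖x‖) :=
              mul_le_mul_of_nonneg_left h4 (by positivity)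
          _ = K / β * ‖x‖ := by ring
      have h4 := neg_abs_le (G (u 0))
      have h5 := neg_abs_le m₀
      have h6 := norm_nonneg x
      have h7 : 0 ≤ K / β := by positivity
      have h8 : 0 ≤ (|G (u 0)| + |m₀|) * ‖x‖ := by positivity
      simp only [hY]
      nlinarith
    · intro x
      exact div_nonneg (hS.nl.nn _) (hΓpos _).le
    · intro x
      exact div_le_div₀ hMf.1 (hMf.2 _) hβ (g1 _).1
    · intro x
      have h1 := hHD x
      simp only [h1.lap, h1.pd, Fin.sum_univ_three, hS.eq x]
      have h2 := (hΓpos (u x)).ne'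
      simp only [Pi.sub_apply, Pi.smul_apply, smul_eq_mul, Pi.single_eq_same, hg,
        Pi.single_eq_of_ne (show (1 : Fin 3) ≠ 0 by decide),
        Pi.single_eq_of_ne (show (2 : Fin 3) ≠ 0 by decide)]
      field_simp
      ring
    · intro x hx
      simp only [hg]
      rw [hS.nl.hi _ hx, zero_div]
    · intro x hx
      simp only [hg]
      rw [hS.nl.lo _ hx, zero_div]
    · intro x
      rw [hS.eq]
      exact hS.nl.nn _
    · intro x hx
      rw [hS.eq]
      exact hS.nl.lo _ hx
    · intro x
      have h1 := g6 (u x)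
      have h2 : α * G (u x) ≤ α * G a1 + (u x - a1) := by
        calc α * G (u x) ≤ α * (G a1 + (u x - a1) / α) := mul_le_mul_of_nonneg_left h1 hα.le
          _ = α * G a1 + (u x - a1) := by field_simp
      simp only [hY]
      linarith
    · intro x hx
      have h1 := g9 (u x) hx
      have h2 : β * G (u x) = β * G a0 + (u x - a0) := by
        rw [h1]
        field_simp
      simp only [hY]
      linarith
  · intro x
    have : x 0 - Y x - m₀ = G (u x) := by
      simp only [hY]
      ring
    rw [this, g14]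

end Pool.Agent.Helper61.BG
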